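import Pool.Agent.T6.H32.MG.Sub
import Pool.Agent.R615.KU.DetK

/-!
Rational injectivity of the assembly maps in algebraic `K`-theory, for arbitrary coefficient rings, for
groups acting on trees with finite stabilizers modulo commutator subgroups of normal subgroups.

`R` is any ring, `rat (kgr R)` is the functor `G ↦ ℚ ⊗ K₁(R[G])`, and `hq j` is the functor
`G ↦ H_j(G; ℚ)`. `DetK R G` says that for every group `T` and every family of natural transformations
`α_{j,i} : H_j(-; ℚ) → ℚ ⊗ K₁(R[- × T])`, `i ∈ I_j`, linearly independent on `ℤ^j` for each `j`, the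
sum of all the `α_{j,i}` is injective on `G`.

Let the group `G` act by automorphisms on a tree, the vertex stabilizers being finite, and let `N` be
any normal subgroup of `G`. Then `DetK R (G / [N, N])`. Nothing is assumed about the group `G / N`,
which can be any group.
-/

set_option autoImplicit false

namespace Pool.Agent.Results.MP_f7db47_al.ActionsOnTrees

open Pool.Agent.Y483 Pool.Agent.Y477.IW Pool.Agent.Y483.PW Pool.Agent.Y75.MQ Pool.Agent.R615.KU
  Pool.Agent.R615.K1 Pool.Agent.T6.H32.MG

theorem result (R : Type) [Ring R] (G V : Type) [Group G] [MulAction G V] (T : SimpleGraph V)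
    (hT : T.IsTree) (hG : ∀ (g : G) (u v : V), T.Adj u v → T.Adj (g • u) (g • v))
    (hst : ∀ v : V, Finite (MulAction.stabilizer G v)) (N : Subgroup G) [N.Normal] :
    DetK R (G ⧸ (⁅N, N⁆ : Subgroup G)) :=
  det_simple (hasPT_rat (hasPTI_kgr R)) hT hG hst N

end Pool.Agent.Results.MP_f7db47_al.ActionsOnTrees
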