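import Pool.Agent.T6.H32.NC.CupK
import Pool.Agent.R615.KU.DetK

/-!
The kernels of the rational assembly maps in algebraic `K`-theory, for arbitrary groups and arbitrary
coefficient rings, are orthogonal to products of degree-one classes with coefficients in permutation
modules.

`R` is any ring, `rat (kgr R)` is the functor `G ↦ ℚ ⊗ K₁(R[G])`, `timesF T` is the functor
`G ↦ G × T`, and `hq j` is the functor `G ↦ H_j(G; ℚ)`. Let `T` be a group and
`α_{j,i} : H_j(-; ℚ) → ℚ ⊗ K₁(R[- × T])`, `i ∈ I_j`, a family of natural transformations such that the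
`α_{j,i}`, `i ∈ I_j`, are linearly independent on `ℤ^j` for each `j` (`Indep`). Let `G` be a group and
`x = (x_{j,i})` an element of the kernel of the sum of all the `α_{j,i}` for `G`.

Let `A₁, …, Aⱼ` be arbitrary `G`-sets and `θₛ : G → ℤ[Aₛ]` crossed homomorphisms. The product
`θ₁ ∪ ⋯ ∪ θⱼ` is the cocycle on `G^j` with values in `ℤ[A₁ × ⋯ × Aⱼ]` which sends `(g₁, …, gⱼ)` to
`θ₁(g₁) ⊗ g₁ θ₂(g₂) ⊗ ⋯ ⊗ g₁ ⋯ gⱼ₋₁ θⱼ(gⱼ)`. Then for each `i ∈ I_j` and each orbit of `G` on
`A₁ × ⋯ × Aⱼ` the sum over the orbit of the coefficients of the value of `θ₁ ∪ ⋯ ∪ θⱼ` on a cycle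
which represents `x_{j,i}` is `0`.
-/

set_option autoImplicit false

namespace Pool.Agent.Results.MP_f7db47_al.PermutationClasses

open CategoryTheory Finsupp Pool.Agent.Y483 Pool.Agent.Y477.IW Pool.Agent.Y483.PW
  Pool.Agent.Y75.MQ Pool.Agent.R615.KU Pool.Agent.R615.K1 Pool.Agent.T6.H32.NC

/-- The coefficient at `a` of the value at `(g₁, …, gⱼ)` of the product of the `θₛ`. -/
noncomputable def coef {G : Type} [Group G] {j : ℕ} {A : Fin j → Type} [∀ s, MulAction G (A s)]
    (θ : ∀ s, G → (A s →₀ ℤ)) (g : Fin j → G) (a : ∀ s, A s) : ℤ :=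
  ∏ s, ((θ s (g s)).mapDomain fun b => Fin.partialProd g s.castSucc • b) (a s)

theorem cross {G : Type} [Group G] {j : ℕ} {A : Fin j → Type} [∀ s, MulAction G (A s)]
    (θ : ∀ s, G → (A s →₀ ℤ))
    (hθ : ∀ s g h, θ s (g * h) = θ s g + (θ s h).mapDomain fun b => g • b) :
    CrossLab (MonoidHom.id G) fun g v => θ v.1 g v.2 where
  mul g h v := by
    rw [hθ, Finsupp.add_apply]
    congr 1
    have e : v.2 = g • (g⁻¹ • v.2) := (smul_inv_smul g v.2).symm
    conv_lhs => rw [e]
    exact Finsupp.mapDomain_apply (MulAction.injective g) _ _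
  fin g := by
    have h : {v : Σ s, A s | θ v.1 g v.2 ≠ 0} =
        ⋃ s, (fun b : A s => (⟨s, b⟩ : Σ s, A s)) '' {b | θ s g b ≠ 0} := by
      ext ⟨s, b⟩
      simp only [Set.mem_ofPred_eq, Set.mem_iUnion, Set.mem_image]
      constructor
      · intro hb
        exact ⟨s, b, hb, rfl⟩
      · rintro ⟨s', b', hb, he⟩
        cases he
        exact hb
    rw [h]
    refine Set.finite_iUnion fun s => Set.Finite.image _ ?_
    refine (θ s g).support.finite_toSet.subset ?_
    intro b hb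
    exact Finsupp.mem_support_iff.mpr hb

theorem result (R : Type) [Ring R] (T : Type) [Group T] (I : ℕ → Type)
    (α : ∀ j : ℕ, I j → (hq j ⟶ timesF T ⋙ rat (kgr R))) (_ : Indep α) (G : Type) [Group G]
    (x : DirectSum (Σ j, I j) fun p => (hq p.1).obj (GrpCat.of G))
    (_ : x ∈ kerFam (fun p : Σ j, I j => α p.1 p.2) (GrpCat.of G))
    (p : Σ j, I j) (A : Fin p.1 → Type) [∀ s, MulAction G (A s)] (θ : ∀ s, G → (A s →₀ ℤ))
    (_ : ∀ s g h, θ s (g * h) = θ s g + (θ s h).mapDomain fun b => g • b)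
    (z : (Fin p.1 → G) →₀ ℚ) (_ : Rpr (Rep.trivial ℚ G ℚ) p.1 z (x p)) (a₀ : ∀ s, A s) :
    z.sum (fun g r => r * ∑ᶠ a ∈ MulAction.orbit G a₀, (coef θ g a : ℚ)) = 0 := by
  rename_i hα _ hx _ hθ hz
  have hl := cross θ hθ
  have h := cup_ker (hasPT_rat (hasPTI_kgr R)) α hα x hx p _ hl (MulAction.orbit G a₀)
    (fun g a ha => by
      obtain ⟨k, rfl⟩ := ha
      exact ⟨g * k, mul_smul g k a₀⟩) z hz
  rw [LinearMap.comp_apply, ← Finsupp.sum_single z, Finsupp.sum, map_sum, map_sum] at h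
  rw [Finsupp.sum, ← h]
  apply Finset.sum_congr rfl
  intro g _
  rw [PO_sg_single hl, mul_comm]
  congr 1
  apply finsum_congr
  intro a
  apply finsum_congr
  intro _
  unfold coef
  push_cast
  apply Finset.prod_congr rfl
  intro s _
  congr 1
  have e : a s = Fin.partialProd g s.castSucc • ((Fin.partialProd g s.castSucc)⁻¹ • a s) :=
    (smul_inv_smul _ (a s)).symm
  conv_lhs => rw [e]
  exact Finsupp.mapDomain_apply (MulAction.injective _) _ _

end Pool.Agent.Results.MP_f7db47_al.PermutationClasses
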