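import Pool.Agent.T6.H32.NC.Vis
import Pool.Agent.R615.KU.DetK

/-!
Natural transformations from rational homology to the algebraic `K`-theory of group rings commute with
the transfers along pairs of cocycles, for arbitrary coefficient rings.

`R` is any ring, `rat (kgr R)` is the functor `G ↦ ℚ ⊗ K₁(R[G])`, `timesF T` is the functor
`G ↦ G × T`, and `hq j` is the functor `G ↦ H_j(G; ℚ)`. A pair `κ` (`FinPair G A K`) consists of an
action of the group `G` on a set `A` and of two cocycles `c, d : G × A → K`, such that for each `g`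
one has `c(g, a) = d(g, a)` for all but finitely many `a`. The transfer
`trH κ j : H_j(G; ℚ) → H_j(K; ℚ)` is induced by the chain map which sends `[g₁ | … | gⱼ]` to the
finite sum over `a` of
`[c(g₁, g₁⁻¹ a) | c(g₂, (g₁ g₂)⁻¹ a) | …] - [d(g₁, g₁⁻¹ a) | d(g₂, (g₁ g₂)⁻¹ a) | …]`.

* For each pair and each group `T` there is a linear map from `ℚ ⊗ K₁(R[G × T])` to
  `ℚ ⊗ K₁(R[K × T])` which makes the square commute for every degree `j` and every natural
  transformation `H_j(-; ℚ) → ℚ ⊗ K₁(R[- × T])`.
* Let `𝒦_R` be the class of the groups `G` with `DetK R G`. A group is in `𝒦_R` if each nonzero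
  rational homology class becomes nonzero after finitely many homomorphisms and transfers along pairs
  which end at a group of `𝒦_R` (`Visible`).
-/

set_option autoImplicit false

namespace Pool.Agent.Results.MP_f7db47_al.TransfersAlongPairs

open CategoryTheory Pool.Agent.Y483 Pool.Agent.Y477.IW Pool.Agent.Y483.PW Pool.Agent.Y75.MQ
  Pool.Agent.R615.KU Pool.Agent.R615.K1 Pool.Agent.T6.H32.NC

theorem result (R : Type) [Ring R] :
    (∀ (T G A K : Type) [Group T] [Group G] [Group K] (κ : FinPair G A K),
      ∃ Φ : (timesF T ⋙ rat (kgr R)).obj (GrpCat.of G) →ₗ[ℚ]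
          (timesF T ⋙ rat (kgr R)).obj (GrpCat.of K),
        ∀ (j : ℕ) (α : hq j ⟶ timesF T ⋙ rat (kgr R)) (x : (hq j).obj (GrpCat.of G)),
          Φ ((α.app (GrpCat.of G)).hom x) = (α.app (GrpCat.of K)).hom (trH κ j x)) ∧
    (∀ (G : Type) [hG : Group G], (∀ (j : ℕ) (x : (hq j).obj (GrpCat.of G)), x ≠ 0 →
      Visible (fun K _ => DetK R K) j G hG x) → DetK R G) := by
  refine ⟨?_, ?_⟩
  · intro T G A K _ _ _ κ
    exact Pool.Agent.T6.H32.NC.comm κ ((hasPT_rat (hasPTI_kgr R)).times T)
  · intro G _ h
    exact Det.visible (E := rat (kgr R)) (hasPT_rat (hasPTI_kgr R)) h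

end Pool.Agent.Results.MP_f7db47_al.TransfersAlongPairs
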