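import Pool.Agent.T6.H34.TW.Raag
import Pool.Agent.R615.KU.DetK

/-!
Closure of the class of the groups with injective rational assembly maps in algebraic `K`-theory, for
arbitrary coefficient rings, under twisted extensions, with right-angled Artin kernels, and under
extensions with free kernels.

`R` is any ring, `rat (kgr R)` is the functor `G ↦ ℚ ⊗ K₁(R[G])`, and `HQ j G` is `H_j(G; ℚ)`. The
class `𝒦_R` is the class of the groups `G` with `DetK R G`: for every group `T` and every family of
natural transformations `α_{j,i} : H_j(-; ℚ) → ℚ ⊗ K₁(R[- × T])`, `i ∈ I_j`, such that the `α_{j,i}`,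
`i ∈ I_j`, are linearly independent on `ℤ^j` for each `j`, the sum of all the `α_{j,i}` is injective
on `G`.

Let `Γ` act on a set `V` and on a group `M` with endomorphisms `e_S` of `M`, `S ⊆ V`, such that
`e_S e_T = e_{S ∩ T}`, `γ e_S = e_{γ S} γ` and every element of `M` is fixed by `e_S` for some
finite `S` (`Sys`). A homomorphism `f : N → M` is adapted (`Adapted`) if there is an invariant family
`C` of finite subsets of `V`, closed under subsets, such that `e_S H_*(M; ℚ) ⊆ f_* H_*(N; ℚ)` for
`S ∈ C` and such that a class in `H_*(N; ℚ)` vanishes if the `(e_S f)_*`, `S ∈ C`, vanish on it.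

* Let `f` be adapted, let `G` be an extension of `Γ` by `N` and `π : G → M ⋊ Γ` a homomorphism over `Γ`
  which extends `f` (`Extends`). Then `π` is injective on rational homology. The group `G` is in `𝒦_R`
  if, for each finite set `σ ⊆ V` no two elements of which are separated, the group of all `(m, γ)`
  with `e_σ m = m`, `γ` fixing the elements of `σ`, is in `𝒦_R`.
* In particular, let `Γ` act on a graph `Λ` with vertex set `V` and on the right-angled Artin group
  `RAAG Λ` such that `γ x_v` and `x_{γ v}` agree modulo the commutator subgroup (`PermAb`). If the pointwise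
  stabilizers in `Γ` of the finite subsets of `V` are in `𝒦_R`, then `RAAG Λ ⋊ Γ` is in `𝒦_R`.
* Let `N` be a free normal subgroup of a group `G`, or any normal subgroup whose rational homology
  vanishes above degree one, and let `Q` be a normal subgroup of `G` contained in `[N, N]`. If `G / Q`
  is in `𝒦_R`, then `G` is in `𝒦_R`.
-/

set_option autoImplicit false

namespace Pool.Agent.Results.MP_f7db47_al.TwistedExtensions

open Pool.Agent.Y483 Pool.Agent.Y477.IW Pool.Agent.Y483.PW Pool.Agent.R615.KU Pool.Agent.R615.K1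
  Pool.Agent.T6.H34.TW

theorem result (R : Type) [Ring R] :
    (∀ (G Γ N M V : Type) [Group G] [Group Γ] [Group N] [Group M] [MulAction Γ V]
      (s : Sys Γ M V) (f : N →* M) (i : N →* G) (π : G →* s.G), Adapted s f → Extends s f i π →
        HInj π ∧ ((∀ σ : s.Cl, DetK R (s.supG σ.1)) → DetK R G)) ∧
    (∀ (Γ V : Type) [Group Γ] [MulAction Γ V] (Λ : SimpleGraph V) (ψ : Γ →* MulAut (RAAG Λ)),
      (∀ (γ : Γ) (u v : V), Λ.Adj u v → Λ.Adj (γ • u) (γ • v)) → PermAb ψ →
      (∀ σ : Finset V, DetK R (fixingSubgroup Γ (σ : Set V))) → DetK R (RAAG Λ ⋊[ψ] Γ)) ∧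
    (∀ (G : Type) [Group G] (N Q : Subgroup G) [N.Normal] [Q.Normal], Q ≤ ⁅N, N⁆ →
      (IsFreeGroup N ∨ ∀ q : ℕ, 1 < q → ∀ x : HQ q N, x = 0) → DetK R (G ⧸ Q) → DetK R G) := by
  refine ⟨?_, ?_, ?_⟩
  · intro G Γ N M V _ _ _ _ _ s f i π hf h
    exact ⟨h.hInj hf, h.det_sep (E := rat (kgr R)) (hasPT_rat (hasPTI_kgr R)) hf⟩
  · intro Γ V _ _ Λ ψ hΛ hψ hΓ
    exact det_raag (E := rat (kgr R)) (hasPT_rat (hasPTI_kgr R)) hΛ ψ hψ hΓ
  · intro G _ N Q _ _ hR hN h
    rcases hN with hN | hN
    · exact det_free (E := rat (kgr R)) N Q hR h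
    · exact det_quo (E := rat (kgr R)) N Q hR hN h

end Pool.Agent.Results.MP_f7db47_al.TwistedExtensions
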